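import Pool.Agent.W922.GY2.Stm

set_option autoImplicit false

/-!
# The norm of a locally compact group without small subgroups (part NU)
-/

namespace Pool.Agent.W2.GY2

open Pool.Agent.W922.GY2

theorem cost_append {G : Type} (f : G → ℝ) (L L' : List G) :
    cost f (L ++ L') = cost f L + cost f L' := by
  simp [cost]

theorem cost_nonneg {G : Type} (f : G → ℝ) (hf : ∀ g, 0 ≤ f g) (L : List G) :
    0 ≤ cost f L := by
  refine List.sum_nonneg fun x hx => ?_
  obtain ⟨g, _, rfl⟩ := List.mem_map.1 hx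
  exact hf g

theorem cost_rev {G : Type} [Group G] (f : G → ℝ) (hf : ∀ g, f g⁻¹ = f g) (L : List G) :
    cost f (L.map (fun x => x⁻¹)).reverse = cost f L := by
  unfold cost
  rw [List.map_reverse, List.sum_reverse, List.map_map]
  congr 1
  refine List.map_congr_left fun x _ => ?_
  exact hf x

theorem rep {G : Type} [Group G] (f : G → ℝ) (L : List G) (i : ℕ) :
    ∃ L' : List G, L'.prod = L.prod ^ i ∧ cost f L' = i * cost f L := by
  induction i with
  | zero => exact ⟨[], by simp, by simp [cost]⟩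
  | succ i ih =>
    obtain ⟨L', h1, h2⟩ := ih
    refine ⟨L' ++ L, ?_, ?_⟩
    · rw [List.prod_append, h1, pow_succ]
    · rw [cost_append, h2]
      push_cast
      ring

theorem nuN (hE : S_ESC) : S_NU := by
  intro G _ _ _ _ U M hU hM hP
  obtain ⟨e1, e2, -, e4, -, -⟩ := hE G U hU
  have hc0 : ∀ L : List G, 0 ≤ cost (esc U) L := cost_nonneg _ fun g => (e1 g).1
  have hbd : ∀ g : G, BddBelow {r : ℝ | ∃ L : List G, L.prod = g ∧ r = cost (esc U) L} := by
    intro g
    refine ⟨0, ?_⟩
    rintro r ⟨L, _, rfl⟩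
    exact hc0 L
  have hne : ∀ g : G, {r : ℝ | ∃ L : List G, L.prod = g ∧ r = cost (esc U) L}.Nonempty :=
    fun g => ⟨_, [g], by simp, rfl⟩
  have hle : ∀ (g : G) (L : List G), L.prod = g → nu U g ≤ cost (esc U) L :=
    fun g L hL => csInf_le (hbd g) ⟨L, hL, rfl⟩
  have hex : ∀ (g : G) (r : ℝ), nu U g < r → ∃ L : List G, L.prod = g ∧ cost (esc U) L < r := by
    intro g r hr
    obtain ⟨x, ⟨L, hL, rfl⟩, hx⟩ := exists_lt_of_csInf_lt (hne g) hr
    exact ⟨L, hL, hx⟩
  have hnn : ∀ g, 0 ≤ nu U g := by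
    intro g
    refine le_csInf (hne g) ?_
    rintro r ⟨L, _, rfl⟩
    exact hc0 L
  have hinv : ∀ g, nu U g⁻¹ ≤ nu U g := by
    intro g
    refine le_csInf (hne g) ?_
    rintro r ⟨L, hL, rfl⟩
    rw [← cost_rev (esc U) e4 L]
    refine hle _ _ ?_
    rw [← List.prod_inv_reverse, hL]
  refine ⟨?_, hnn, fun g => le_antisymm (hinv g) ?_, fun g h => ?_, fun g => ?_, fun g => ?_⟩
  · refine le_antisymm ?_ (hnn 1)
    have := hle 1 [] (by simp)
    simpa [cost] using this
  · have := hinv g⁻¹
    rwa [inv_inv] at this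
  · refine le_of_forall_pos_le_add fun δ hδ => ?_
    obtain ⟨L1, h1, h2⟩ := hex g (nu U g + δ / 2) (by linarith)
    obtain ⟨L2, h3, h4⟩ := hex h (nu U h + δ / 2) (by linarith)
    have h5 := hle (g * h) (L1 ++ L2) (by rw [List.prod_append, h1, h3])
    rw [cost_append] at h5
    linarith
  · have := hle g [g] (by simp)
    simpa [cost] using this
  · have key : ∀ n : ℕ, (n : ℝ) * (M * nu U g) < 1 → esc U g ≤ 1 / ((n : ℝ) + 1) := by
      intro n hn
      refine e2 g n fun i hi => ?_
      rcases Nat.eq_zero_or_pos i with h0 | h0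
      · subst h0
        have h1 := hP [] (by simp [cost])
        simpa using h1
      · have hi0 : (0 : ℝ) < i := by exact_mod_cast h0
        have hiM : 0 < (i : ℝ) * M := by positivity
        have h1 : (i : ℝ) * (M * nu U g) < 1 := by
          refine lt_of_le_of_lt ?_ hn
          refine mul_le_mul_of_nonneg_right (by exact_mod_cast hi) ?_
          exact mul_nonneg hM.le (hnn g)
        have h2 : nu U g < 1 / ((i : ℝ) * M) := by
          rw [lt_div_iff₀ hiM]
          linarith
        obtain ⟨L, hL1, hL2⟩ := hex g _ h2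
        obtain ⟨L', h3, h4⟩ := rep (esc U) L i
        rw [← hL1, ← h3]
        refine hP L' ?_
        rw [h4]
        rw [lt_div_iff₀ hiM] at hL2
        linarith
    rcases (hnn g).eq_or_lt with h0 | h0
    · rw [← h0, mul_zero]
      by_contra hcon
      rw [not_le] at hcon
      obtain ⟨n, hn⟩ := exists_nat_one_div_lt hcon
      have h1 := key n (by rw [← h0]; simp)
      linarith
    · have hx : 0 < M * nu U g := mul_pos hM h0
      set x := 1 / (M * nu U g) with hxdef
      have hx0 : 0 < x := by positivity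
      have hc : 0 < ⌈x⌉₊ := Nat.ceil_pos.2 hx0
      obtain ⟨n, hn⟩ : ∃ n, ⌈x⌉₊ = n + 1 := ⟨⌈x⌉₊ - 1, by omega⟩
      have h1 : (n : ℝ) < x := Nat.lt_ceil.1 (by omega)
      have h2 : x ≤ (n : ℝ) + 1 := by
        have := Nat.le_ceil x
        rw [hn] at this
        push_cast at this
        exact this
      have h3 : (n : ℝ) * (M * nu U g) < 1 := by
        rw [hxdef, lt_div_iff₀ hx] at h1
        exact h1
      refine (key n h3).trans ?_
      rw [div_le_iff₀ (by positivity)]
      rw [hxdef, div_le_iff₀ hx] at h2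
      linarith

end Pool.Agent.W2.GY2
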